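import Mathlib
import Pool.Agent.H704R3.BMain
import Pool.Agent.H704R3.BMoment
import Pool.Agent.H704R3.BNewton
import Pool.Agent.H704R3.BSplit
import Pool.Agent.H704R3.BWindow
import Pool.Agent.H704R3.BExch
import Pool.Agent.H704R3.BSection
import Pool.Agent.H704R3.BOne
import Pool.Agent.H704R3.BLO
import Pool.Agent.H704R3.BLLN

set_option autoImplicit false

namespace Pool.Agent.Results.MP_7f94de_pr.BoundedLaws
open Finset Filter Topology MeasureTheory ProbabilityTheory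

theorem result :
    ∀ (Ω : Type) [MeasurableSpace Ω] (P : Measure Ω) [IsProbabilityMeasure P]
      (Y : ℕ → Ω → ℂ),
      (∀ i, Measurable (Y i)) →
      iIndepFun Y P →
      (∀ i, IdentDistrib (Y i) (Y 0) P P) →
      (¬ ∃ c : ℂ, ∀ᵐ ω ∂P, Y 0 ω = c) →
      ((∃ F : Finset ℂ, ∀ᵐ ω ∂P, Y 0 ω ∈ F) ∨
        ((∃ M : ℝ, ∀ᵐ ω ∂P, ‖Y 0 ω‖ ≤ M) ∧ (∃ p : ℕ, 1 ≤ p ∧ ∫ ω, (Y 0 ω)^p ∂P ≠ 0))) →
      ∀ (k : ℕ → ℕ),
        Tendsto (fun n : ℕ => (k n : ℝ) / (n : ℝ)) atTop (𝓝 0) →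
        ∀ ε : ℝ, 0 < ε →
          Tendsto
            (fun n : ℕ =>
              P {ω | ‖∑ s ∈ (Finset.range n).powersetCard (k n), ∏ i ∈ s, Y i ω‖
                    ≤ Real.exp (-(ε * (n : ℝ)))})
            atTop (𝓝 0) := by
  intro Ω _ P _ Y hm hind hid hnd hlaw k hk ε hε
  obtain ⟨⟨M, hM⟩, hp⟩ : (∃ M : ℝ, ∀ᵐ ω ∂P, ‖Y 0 ω‖ ≤ M) ∧
      (∃ p : ℕ, 1 ≤ p ∧ ∫ ω, (Y 0 ω)^p ∂P ≠ 0) := by
    rcases hlaw with ⟨F, hF⟩ | h
    · refine ⟨⟨∑ z ∈ F, ‖z‖, ?_⟩, Pool.Agent.H704R3.B.exists_moment P (Y 0) (hm 0) F hF hnd⟩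
      filter_upwards [hF] with ω hω
      exact Finset.single_le_sum (f := fun z : ℂ => ‖z‖) (fun _ _ => norm_nonneg _) hω
    · exact h
  exact Pool.Agent.H704R3.B.bounded_case Pool.Agent.H704R3.B.tnewton Pool.Agent.H704R3.B.tsplit
    Pool.Agent.H704R3.B.twindow Pool.Agent.H704R3.B.tsection
    (Pool.Agent.H704R3.B.tlostep Pool.Agent.H704R3.B.tsplit Pool.Agent.H704R3.B.texch
      Pool.Agent.H704R3.B.tsection Pool.Agent.H704R3.B.tpigeon Pool.Agent.H704R3.B.tone)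
    Pool.Agent.H704R3.B.tlln Ω P Y hm hind hid hnd M hM hp k hk ε hε

end Pool.Agent.Results.MP_7f94de_pr.BoundedLaws
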