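import Mathlib
import Pool.Agent.H704R3.RealCase

set_option autoImplicit false

namespace Pool.Agent.Results.MP_7f94de_pr.LineLaws
open Finset Filter Topology MeasureTheory ProbabilityTheory

theorem result :
    ∀ (Ω : Type) [MeasurableSpace Ω] (P : Measure Ω) [IsProbabilityMeasure P]
      (Y : ℕ → Ω → ℂ),
      (∀ i, Measurable (Y i)) →
      iIndepFun Y P →
      (∀ i, IdentDistrib (Y i) (Y 0) P P) →
      (¬ ∃ c : ℂ, ∀ᵐ ω ∂P, Y 0 ω = c) →
      (∃ u : ℂ, ∀ᵐ ω ∂P, ∃ r : ℝ, Y 0 ω = (r : ℂ) * u) →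
      ∀ (k : ℕ → ℕ),
        Tendsto (fun n : ℕ => (k n : ℝ) / (n : ℝ)) atTop (𝓝 0) →
        ∀ ε : ℝ, 0 < ε →
          Tendsto
            (fun n : ℕ =>
              P {ω | ‖∑ s ∈ (Finset.range n).powersetCard (k n), ∏ i ∈ s, Y i ω‖
                    ≤ Real.exp (-(ε * (n : ℝ)))})
            atTop (𝓝 0) := by
  intro Ω _ P _ Y hm hind hid hnd hline k hk ε hε
  obtain ⟨u, hu⟩ := hline
  have hu0 : u ≠ 0 := by
    rintro rfl
    apply hnd
    refine ⟨0, ?_⟩
    filter_upwards [hu] with ω hω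
    obtain ⟨r, hr⟩ := hω
    rw [hr, mul_zero]
  have hnu : 0 < ‖u‖ := norm_pos_iff.mpr hu0
  have hnu0 : (‖u‖ : ℂ) ≠ 0 := by exact_mod_cast hnu.ne'
  set w : ℂ := u / ‖u‖ with hw
  have hwn : ‖w‖ = 1 := by
    rw [hw, norm_div, Complex.norm_real, norm_norm, div_self hnu.ne']
  have hww : w * (starRingEnd ℂ) w = 1 := by
    rw [Complex.mul_conj, Complex.normSq_eq_norm_sq, hwn]
    norm_num
  let f : ℂ → ℝ := fun z => (z * (starRingEnd ℂ) w).re
  have hf : Measurable f := by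
    have : Continuous f := by
      exact Complex.continuous_re.comp (continuous_id.mul continuous_const)
    exact this.measurable
  let R : ℕ → Ω → ℝ := fun i ω => f (Y i ω)
  have hRm : ∀ i, Measurable (R i) := fun i => hf.comp (hm i)
  have hRind : iIndepFun R P := hind.comp (fun _ => f) (fun _ => hf)
  have hRid : ∀ i, IdentDistrib (R i) (R 0) P P := fun i => (hid i).comp hf
  have hset : MeasurableSet {z : ℂ | z = (f z : ℂ) * w} :=
    measurableSet_eq_fun measurable_id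
      ((Complex.measurable_ofReal.comp hf).mul_const w)
  have hY0 : ∀ᵐ ω ∂P, Y 0 ω ∈ {z : ℂ | z = (f z : ℂ) * w} := by
    filter_upwards [hu] with ω hω
    obtain ⟨r, hr⟩ := hω
    have e1 : Y 0 ω = ((r * ‖u‖ : ℝ) : ℂ) * w := by
      rw [hr, hw]
      push_cast
      field_simp
    have e2 : f (Y 0 ω) = r * ‖u‖ := by
      show (Y 0 ω * (starRingEnd ℂ) w).re = r * ‖u‖
      rw [e1, mul_assoc, hww, mul_one, Complex.ofReal_re]
    show Y 0 ω = (f (Y 0 ω) : ℂ) * w
    rw [e2]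
    exact e1
  have hYi : ∀ i, ∀ᵐ ω ∂P, Y i ω = (R i ω : ℂ) * w := fun i =>
    (hid i).symm.ae_mem_snd hset hY0
  have hRnd : ¬ ∃ c : ℝ, ∀ᵐ ω ∂P, R 0 ω = c := by
    rintro ⟨c, hc⟩
    apply hnd
    refine ⟨(c : ℂ) * w, ?_⟩
    filter_upwards [hc, hYi 0] with ω h1 h2
    rw [h2, h1]
  have main := Pool.Agent.H704R3.real_case P R hRm hRind hRid hRnd k hk ε hε
  have hall : ∀ᵐ ω ∂P, ∀ i, Y i ω = (R i ω : ℂ) * w := ae_all_iff.mpr hYi
  refine main.congr (fun n => ?_)
  apply measure_congr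
  filter_upwards [hall] with ω hω
  have e3 : ‖∑ s ∈ (Finset.range n).powersetCard (k n), ∏ i ∈ s, Y i ω‖ =
      |Pool.Agent.H704R3.es (range n) (k n) (fun i => R i ω)| := by
    have e4 : ∑ s ∈ (Finset.range n).powersetCard (k n), ∏ i ∈ s, Y i ω =
        ((Pool.Agent.H704R3.es (range n) (k n) (fun i => R i ω) : ℝ) : ℂ) * w ^ (k n) := by
      unfold Pool.Agent.H704R3.es
      push_cast
      rw [Finset.sum_mul]
      apply Finset.sum_congr rfl
      intro s hs
      rw [Finset.prod_congr rfl (fun i _ => hω i), Finset.prod_mul_distrib, Finset.prod_const,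
        (Finset.mem_powersetCard.mp hs).2]
    rw [e4, norm_mul, norm_pow, hwn, one_pow, mul_one, Complex.norm_real, Real.norm_eq_abs]
  apply propext
  show |Pool.Agent.H704R3.es (range n) (k n) (fun i => R i ω)| ≤ Real.exp (-(ε * n)) ↔
    ‖∑ s ∈ (Finset.range n).powersetCard (k n), ∏ i ∈ s, Y i ω‖ ≤ Real.exp (-(ε * n))
  rw [e3]

end Pool.Agent.Results.MP_7f94de_pr.LineLaws
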